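import Mathlib
import Pool.Agent.H171.SepCA.Main

/-!
# MP_72ebf0_an: LR-separated cellular automata whose inner map is additive

Partial answer to Q1.  The local rule is
`f x = ∑_{l < j < r} φ_j (x_j) + al * x_l ^ ql + ar * x_r ^ qr` with arbitrarily many inner
variables (at arbitrary places), so `π` is a sum of functions of one variable.

1. If `ql`, `qr` are congruent modulo `p - 1` to divisors `dl`, `dr` of `p - 1` and every `φ_j`
   is a polynomial of degree at most `min dl dr`, then surjectivity implies that `ql` or `qr` is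
   coprime to `p - 1`.
2. For `p ≥ 3`, if `ql` and `qr` are multiples of `p - 1`, the automaton is never surjective,
   whatever the functions `φ_j`.
3. For `p = 3` the claim of Q1 holds for all functions `φ_j`.

Proof idea: by the balance property of surjective automata, for every finitely supported nonzero
`c` one of the functions `∑_j c_{t-j} h_j` is a permutation of `ZMod p`
(`h_l, h_r` the two outer monomials, `h_j = φ_j` inside). One chooses `c` so that all of them have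
exact degree `dl` or `dr`, divisors of `p - 1` bigger than `1` (Hermite); for `dl = dr` such a `c`
is `(z ^ N - 1) / ((z - 1) β(z))`, `β` the polynomial of the coefficients of degree `dl`.
-/

set_option autoImplicit false

namespace Pool.Agent.Results.MP_72ebf0_an.AdditiveInnerMap

open Polynomial

/-- the cellular automaton of radius `ρ` with local rule `f`; the arguments
`x_1, …, x_{2ρ+1}` of the local rule are indexed from `0` to `2ρ` -/
def globalMap {p : ℕ} (ρ : ℕ) (f : (Fin (2 * ρ + 1) → ZMod p) → ZMod p)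
    (x : ℤ → ZMod p) (i : ℤ) : ZMod p :=
  f (fun j => x (i - ρ + (j : ℕ)))

/-- `f` is LR-separated with leftmost position `l`, rightmost position `r`, units `al`, `ar`,
exponents `ql`, `qr ≥ 1` and inner map the sum of the one-variable functions `φ j`,
`l < j < r` -/
def IsLRAdditive {p ρ : ℕ} (f : (Fin (2 * ρ + 1) → ZMod p) → ZMod p) (l r : Fin (2 * ρ + 1))
    (al ar : ZMod p) (ql qr : ℕ) (φ : Fin (2 * ρ + 1) → ZMod p → ZMod p) : Prop :=
  l < r ∧ al ≠ 0 ∧ ar ≠ 0 ∧ 1 ≤ ql ∧ 1 ≤ qr ∧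
    ∀ x, f x = (∑ j ∈ Finset.Ioo l r, φ j (x j)) + al * x l ^ ql + ar * x r ^ qr

theorem result :
    (∀ (p : ℕ) [Fact p.Prime] (ρ : ℕ) (f : (Fin (2 * ρ + 1) → ZMod p) → ZMod p)
      (l r : Fin (2 * ρ + 1)) (al ar : ZMod p) (ql qr : ℕ)
      (φ : Fin (2 * ρ + 1) → ZMod p → ZMod p) (_ : IsLRAdditive f l r al ar ql qr φ)
      (dl dr : ℕ) (_ : dl ∣ p - 1) (_ : dr ∣ p - 1)
      (_ : ql ≡ dl [MOD p - 1]) (_ : qr ≡ dr [MOD p - 1])
      (_ : ∀ j ∈ Finset.Ioo l r, ∃ G : (ZMod p)[X],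
        (∀ a, φ j a = G.eval a) ∧ G.natDegree ≤ min dl dr),
      Function.Surjective (globalMap ρ f) → ql.Coprime (p - 1) ∨ qr.Coprime (p - 1)) ∧
    (∀ (p : ℕ) [Fact p.Prime] (_ : 3 ≤ p) (ρ : ℕ)
      (f : (Fin (2 * ρ + 1) → ZMod p) → ZMod p)
      (l r : Fin (2 * ρ + 1)) (al ar : ZMod p) (ql qr : ℕ)
      (φ : Fin (2 * ρ + 1) → ZMod p → ZMod p) (_ : IsLRAdditive f l r al ar ql qr φ),
      p - 1 ∣ ql → p - 1 ∣ qr → ¬ Function.Surjective (globalMap ρ f)) ∧
    (∀ (ρ : ℕ) (f : (Fin (2 * ρ + 1) → ZMod 3) → ZMod 3)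
      (l r : Fin (2 * ρ + 1)) (al ar : ZMod 3) (ql qr : ℕ)
      (φ : Fin (2 * ρ + 1) → ZMod 3 → ZMod 3) (_ : IsLRAdditive f l r al ar ql qr φ),
      Function.Surjective (globalMap ρ f) → ql.Coprime (3 - 1) ∨ qr.Coprime (3 - 1)) := by
  have h2 : ∀ (p : ℕ) [Fact p.Prime] (_ : 3 ≤ p) (ρ : ℕ)
      (f : (Fin (2 * ρ + 1) → ZMod p) → ZMod p)
      (l r : Fin (2 * ρ + 1)) (al ar : ZMod p) (ql qr : ℕ)
      (φ : Fin (2 * ρ + 1) → ZMod p → ZMod p) (_ : IsLRAdditive f l r al ar ql qr φ),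
      p - 1 ∣ ql → p - 1 ∣ qr → ¬ Function.Surjective (globalMap ρ f) := by
    intro p hp hp3 ρ f l r al ar ql qr φ h hl hr hs
    obtain ⟨hlr, hal, har, hql, hqr, hf⟩ := h
    exact Pool.Agent.H171.SepCA.main3 p ρ f l r hlr al ar hal har ql qr hql hqr φ hf hs
      ⟨hl, hr, by omega⟩
  refine ⟨?_, h2, ?_⟩
  · intro p hp ρ f l r al ar ql qr φ h dl dr hdl hdr hcl hcr hφ hs
    obtain ⟨hlr, hal, har, hql, hqr, hf⟩ := h
    exact Pool.Agent.H171.SepCA.main p ρ f l r hlr al ar hal har ql qr hql hqr φ hf dl dr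
      hdl hdr hcl hcr hφ hs
  · intro ρ f l r al ar ql qr φ h hs
    haveI : Fact (Nat.Prime 3) := ⟨Nat.prime_three⟩
    by_contra hcon
    rw [not_or] at hcon
    have e : ∀ q : ℕ, ¬ q.Coprime (3 - 1) → 3 - 1 ∣ q := by
      intro q hq
      by_contra h
      apply hq
      have h2' : Nat.Coprime 2 q := (Nat.Prime.coprime_iff_not_dvd Nat.prime_two).mpr h
      exact h2'.symm
    exact h2 3 le_rfl ρ f l r al ar ql qr φ h (e _ hcon.1) (e _ hcon.2) hs

end Pool.Agent.Results.MP_72ebf0_an.AdditiveInnerMap
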